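import Pool.Agent.Y262.EG.Stm

/-!
# Project EG, part FLP (helper857): the geodesic flow on the unit tangent bundle
-/

set_option autoImplicit false

open Set Filter Topology MeasureTheory
open scoped ContDiff

noncomputable section

namespace Pool.Agent.Y857.EG

open Pool.Agent.Y262.EG

theorem flP (hU : StUniq) (hE : StEt) (hD : StDWP) : StFlP := by
  intro M P _ _ _ _ Ω φ pr q Fl hq hg
  obtain ⟨-, -, hdeck⟩ := hE M P Ω φ pr q hq
  obtain ⟨hl, -, -⟩ := hD M P Ω φ pr q hq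
  obtain ⟨huniq, hgrp0⟩ := hU Ω φ hq.opn hq.smooth
  have hgrp := hgrp0 Fl hg
  have hYO : IsOpen (YO Ω) := hq.opn.preimage continuous_fst
  have hcFl : ∀ p ∈ YO Ω, Continuous (fun t => Fl t p) := fun p hp =>
    continuous_iff_continuousAt.2 (fun t => (hg.ode t p hp).continuousAt)
  have hqc : ∀ p ∈ YO Ω, Continuous fun t => q (Fl t p) := fun p hp =>
    continuous_iff_continuousAt.2 fun t =>
      ContinuousAt.comp (g := q) (f := fun t => Fl t p)
        (hq.contq.continuousAt (hYO.mem_nhds (hg.maps t p hp))) ((hcFl p hp).continuousAt)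
  have key : ∀ p ∈ YO Ω, ∀ p' ∈ YO Ω, q p = q p' → ∀ t, q (Fl t p) = q (Fl t p') := by
    intro p hp p' hp' hpp t
    let S : Set ℝ := {t | q (Fl t p) = q (Fl t p')}
    have hSc : IsClosed S := isClosed_eq (hqc p hp) (hqc p' hp')
    have hSo : IsOpen S := by
      rw [isOpen_iff_mem_nhds]
      intro t0 ht0
      obtain ⟨U, A, hUo, hpU, hUΩ, hA, hAp, hAall⟩ :=
        hdeck (Fl t0 p) (hg.maps t0 p hp) (Fl t0 p') (hg.maps t0 p' hp') ht0
      have h1 : ∀ᶠ t in 𝓝 t0, Fl t p ∈ U :=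
        (hcFl p hp).continuousAt (hUo.mem_nhds hpU)
      obtain ⟨ε, hε, hball⟩ := Metric.eventually_nhds_iff_ball.1 h1
      have h2 : ∀ t ∈ Metric.ball t0 ε, A (Fl t p) = Fl t p' := by
        refine huniq (fun t => A (Fl t p)) (fun t => Fl t p') (Metric.ball t0 ε)
          Metric.isOpen_ball (convex_ball t0 ε).isPreconnected ?_ ?_ t0
          (Metric.mem_ball_self hε) hAp
        · intro t ht
          exact ⟨(hAall _ (hball t ht)).1, hg.maps t p' hp'⟩
        · intro t ht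
          refine ⟨?_, hg.ode t p' hp'⟩
          have hd : HasFDerivAt A (fderiv ℝ A (Fl t p)) (Fl t p) :=
            ((hA.contDiffAt (hUo.mem_nhds (hball t ht))).differentiableAt (by simp)).hasFDerivAt
          have h3 := hd.comp_hasDerivAt t (hg.ode t p hp)
          rwa [(hAall _ (hball t ht)).2.2.2.1] at h3
      filter_upwards [Metric.ball_mem_nhds t0 hε] with t ht
      show q (Fl t p) = q (Fl t p')
      rw [← h2 t ht, (hAall _ (hball t ht)).2.1]
    have hS : S = univ := IsClopen.eq_univ ⟨hSc, hSo⟩ ⟨0, by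
      show q (Fl 0 p) = q (Fl 0 p')
      rw [hg.zero p hp, hg.zero p' hp']
      exact hpp⟩
    have h4 : t ∈ S := by
      rw [hS]
      trivial
    exact h4
  have h1 : ∀ t, ∀ p ∈ YO Ω, FlP Ω q Fl t (q p) = q (Fl t p) := fun t p hp =>
    key _ (hl (q p)).1 p hp (hl (q p)).2 t
  refine ⟨h1, ?_, ?_, ?_⟩
  · rw [continuous_iff_continuousAt]
    rintro ⟨t0, x0⟩
    have hp0 : lft Ω q x0 ∈ YO Ω := (hl x0).1
    have hc : ContinuousAt (fun a : ℝ × Y => q (Fl a.1 a.2)) (t0, lft Ω q x0) := by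
      have h2 : ContinuousAt (fun a : ℝ × Y => Fl a.1 a.2) (t0, lft Ω q x0) :=
        hg.smooth.continuousOn.continuousAt
          (IsOpen.mem_nhds (hYO.preimage continuous_snd) hp0)
      exact ContinuousAt.comp (g := q) (f := fun a : ℝ × Y => Fl a.1 a.2)
        (hq.contq.continuousAt (hYO.mem_nhds (hg.maps t0 _ hp0))) h2
    intro V hV
    have hV2 : V ∈ 𝓝 (q (Fl t0 (lft Ω q x0))) := hV
    have hV' : {a : ℝ × Y | q (Fl a.1 a.2) ∈ V} ∈ 𝓝 (t0, lft Ω q x0) := hc hV2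
    obtain ⟨J, O, hJ, ht0J, hO, hp0O, hsub⟩ := mem_nhds_prod_iff'.1 hV'
    have h5 : J ×ˢ (q '' (O ∩ YO Ω)) ∈ 𝓝 (t0, x0) :=
      prod_mem_nhds (hJ.mem_nhds ht0J)
        ((hq.opnq _ (hO.inter hYO) inter_subset_right).mem_nhds
          ⟨lft Ω q x0, ⟨hp0O, hp0⟩, (hl x0).2⟩)
    rw [Filter.mem_map]
    filter_upwards [h5]
    rintro ⟨t, x⟩ ⟨ht, p, ⟨hpO, hpY⟩, hpx⟩
    have hpx' : q p = x := hpx
    show FlP Ω q Fl t x ∈ V
    rw [← hpx', h1 t p hpY]
    exact hsub (show (t, p) ∈ J ×ˢ O from ⟨ht, hpO⟩)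
  · intro x
    show q (Fl 0 (lft Ω q x)) = x
    rw [hg.zero _ (hl x).1, (hl x).2]
  · intro t t' x
    show q (Fl (t + t') (lft Ω q x)) = FlP Ω q Fl t (q (Fl t' (lft Ω q x)))
    rw [h1 t _ (hg.maps t' _ (hl x).1), hgrp t t' _ (hl x).1]

end Pool.Agent.Y857.EG
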